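import Pool.Agent.H90.RG.Targets

/-! REG part F, row DUS: stationarity with a dummy variable. -/

set_option autoImplicit false

open MeasureTheory Metric Set Filter Topology Pool.Agent.H87.SN Pool.Agent.H90.RG
open scoped ContDiff RealInnerProductSpace ENNReal

namespace Pool.Agent.H35.RG

/-- the entries of the derivative of a test field -/
theorem psi_ok {n k : ℕ} {X : E n → E k} (hX : IsTest X) (a : E n) (j : Fin k) :
    Continuous (fun x => (fderiv ℝ X x a) j) ∧ (∃ C, ∀ x, |(fderiv ℝ X x a) j| ≤ C) ∧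
      ∀ x, x ∉ ball (0 : E n) 2 → (fderiv ℝ X x a) j = 0 := by
  have hfd : Continuous (fderiv ℝ X) := hX.1.continuous_fderiv (by simp)
  obtain ⟨C, hC⟩ := (hX.2.1.fderiv (𝕜 := ℝ)).exists_bound_of_continuous hfd
  refine ⟨?_, ⟨C * ‖a‖, fun x => ?_⟩, fun x hx => ?_⟩
  · have h1 : Continuous fun x => fderiv ℝ X x a := hfd.clm_apply continuous_const
    fun_prop
  · have h1 : |(fderiv ℝ X x a) j| ≤ ‖fderiv ℝ X x a‖ := by
      rw [← Real.norm_eq_abs]
      exact PiLp.norm_apply_le (fderiv ℝ X x a) j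
    exact h1.trans ((ContinuousLinearMap.le_opNorm _ _).trans
      (mul_le_mul_of_nonneg_right (hC x) (norm_nonneg _)))
  · have h1 : x ∉ tsupport X := fun h => hx (hX.2.2 h)
    rw [fderiv_of_notMem_tsupport ℝ h1]
    rfl

/-- products of two derivatives with a bounded function are integrable -/
theorem int_inner {n m : ℕ} {T : E n → E n →L[ℝ] E m}
    (hT : MemLp T 2 (volume.restrict (ball (0 : E n) 2))) (a b : E n) {ψ : E n → ℝ}
    (hψ : Continuous ψ ∧ (∃ C, ∀ x, |ψ x| ≤ C) ∧ ∀ x, x ∉ ball (0 : E n) 2 → ψ x = 0) :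
    Integrable (fun x => ⟪T x a, T x b⟫ * ψ x) := by
  obtain ⟨h1, ⟨C, hC⟩, h2⟩ := hψ
  have h3 : ∀ v : E n, MemLp (fun x => T x v) 2 (volume.restrict (ball (0 : E n) 2)) := by
    intro v
    exact (ContinuousLinearMap.apply ℝ (E m) v).comp_memLp' hT
  have h4 : ∀ v : E n, Integrable (fun x => ‖T x v‖ ^ 2) (volume.restrict (ball (0 : E n) 2)) :=
    fun v => (h3 v).norm.integrable_sq
  have h5 : IntegrableOn (fun x => ⟪T x a, T x b⟫ * ψ x) (ball (0 : E n) 2) := by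
    refine (((h4 a).add (h4 b)).mul_const C).mono' ?_ (Eventually.of_forall fun x => ?_)
    · exact ((h3 a).1.inner (h3 b).1).mul h1.aestronglyMeasurable
    · rw [Real.norm_eq_abs, abs_mul]
      refine mul_le_mul ?_ (hC x) (abs_nonneg _) (add_nonneg (sq_nonneg _) (sq_nonneg _))
      refine (abs_real_inner_le_norm _ _).trans ?_
      show ‖T x a‖ * ‖T x b‖ ≤ ‖T x a‖ ^ 2 + ‖T x b‖ ^ 2
      nlinarith [sq_nonneg (‖T x a‖ - ‖T x b‖), sq_nonneg ‖T x a‖, sq_nonneg ‖T x b‖]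
  refine (integrableOn_iff_integrable_of_support_subset ?_).1 h5
  intro x hx
  by_contra hxb
  apply hx
  show _ * ψ x = 0
  rw [h2 x hxb, mul_zero]

theorem int_nsq {n m : ℕ} {T : E n → E n →L[ℝ] E m}
    (hT : MemLp T 2 (volume.restrict (ball (0 : E n) 2))) {ψ : E n → ℝ}
    (hψ : Continuous ψ ∧ (∃ C, ∀ x, |ψ x| ≤ C) ∧ ∀ x, x ∉ ball (0 : E n) 2 → ψ x = 0) :
    Integrable (fun x => nsq (T x) * ψ x) := by
  have h1 : (fun x => nsq (T x) * ψ x) = fun x => ∑ i, ⟪T x (bv i), T x (bv i)⟫ * ψ x := by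
    funext x
    unfold nsq
    rw [Finset.sum_mul]
    refine Finset.sum_congr rfl fun i _ => ?_
    rw [real_inner_self_eq_norm_sq]
  rw [h1]
  exact integrable_finsetSum _ fun i _ => int_inner hT (bv i) (bv i) hψ

theorem pf_DUS (hA : T_CNA) (hF : T_CNF) (hT : T_CNT) (hL : T_DML) : T_DUS := by
  intro n m G hG hst X hX
  obtain ⟨a1, a2, a3, a4, a5, a6⟩ := hA n
  obtain ⟨hTG, hnsq, -⟩ := (hL n m (fun _ => 0) G).2.1 hG
  obtain ⟨hXt, hX0⟩ := (hT n).2 X hX
  obtain ⟨-, hFr, -⟩ := hF n m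
  have htg0 : ∀ x, tg G x (bv 0) = 0 := by
    intro x
    show G (tl x) (tl (bv 0)) = 0
    rw [a4, map_zero]
  have htgs : ∀ x (i : Fin n), tg G x (bv i.succ) = G (tl x) (bv i) := by
    intro x i
    show G (tl x) (tl (bv i.succ)) = _
    rw [(a5 i).1]
  obtain ⟨F₁, hF₁⟩ : ∃ F : E (n + 1) → ℝ, F = fun x =>
    nsq (tg G x) * (fderiv ℝ X x (bv 0)) 0 := ⟨_, rfl⟩
  obtain ⟨F₂, hF₂⟩ : ∃ F : E (n + 1) → ℝ, F = fun x =>
    ∑ i : Fin n, nsq (tg G x) * (fderiv ℝ X x (bv i.succ)) i.succ -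
      2 * ∑ i : Fin n, ∑ j : Fin n, ⟪tg G x (bv i.succ), tg G x (bv j.succ)⟫ *
        (fderiv ℝ X x (bv i.succ)) j.succ := ⟨_, rfl⟩
  have hi1 : Integrable F₁ := by
    rw [hF₁]
    exact int_nsq hTG (psi_ok hX _ _)
  have hi2 : Integrable F₂ := by
    rw [hF₂]
    refine Integrable.sub ?_ ?_
    · exact integrable_finsetSum _ fun i _ => int_nsq hTG (psi_ok hX _ _)
    · refine Integrable.const_mul ?_ 2
      exact integrable_finsetSum _ fun i _ => integrable_finsetSum _ fun j _ =>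
        int_inner hTG _ _ (psi_ok hX _ _)
  have e : ∀ x, (nsq (tg G x) * ∑ i : Fin (n + 1), (fderiv ℝ X x (bv i)) i
        - 2 * ∑ i : Fin (n + 1), ∑ j : Fin (n + 1),
          ⟪tg G x (bv i), tg G x (bv j)⟫ * (fderiv ℝ X x (bv i)) j) = F₁ x + F₂ x := by
    intro x
    rw [hF₁, hF₂]
    have h1 : ∑ i : Fin (n + 1), ∑ j : Fin (n + 1),
          ⟪tg G x (bv i), tg G x (bv j)⟫ * (fderiv ℝ X x (bv i)) j =
        ∑ i : Fin n, ∑ j : Fin n, ⟪tg G x (bv i.succ), tg G x (bv j.succ)⟫ *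
        (fderiv ℝ X x (bv i.succ)) j.succ := by
      rw [Fin.sum_univ_succ]
      have h2 : ∑ j : Fin (n + 1), ⟪tg G x (bv 0), tg G x (bv j)⟫ *
          (fderiv ℝ X x (bv 0)) j = 0 := by
        refine Finset.sum_eq_zero fun j _ => ?_
        rw [htg0, inner_zero_left, zero_mul]
      rw [h2, zero_add]
      refine Finset.sum_congr rfl fun i _ => ?_
      rw [Fin.sum_univ_succ, htg0, inner_zero_right, zero_mul, zero_add]
    rw [h1, Fin.sum_univ_succ (f := fun i => (fderiv ℝ X x (bv i)) i), mul_add, Finset.mul_sum]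
    ring
  have h1 : ∫ x, F₁ x = 0 := by
    rw [(hFr F₁ hi1).2.2.1]
    have h2 : ∀ y : E n, ∫ t : ℝ, F₁ (cn t y) = 0 := by
      intro y
      have h3 : ∀ t : ℝ, F₁ (cn t y) = nsq (G y) * (fderiv ℝ X (cn t y) (bv 0)) 0 := by
        intro t
        rw [hF₁]
        show nsq (tg G (cn t y)) * _ = _
        rw [hnsq, (a1 t y).2.1]
      simp only [h3]
      rw [integral_const_mul, hX0 y, mul_zero]
    simp only [h2, integral_zero]
  have h2 : ∫ x, F₂ x = 0 := by
    rw [(hFr F₂ hi2).2.2.2]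
    have h3 : ∀ t : ℝ, ∫ y : E n, F₂ (cn t y) = 0 := by
      intro t
      have h4 := hst _ (hXt t).1
      rw [← h4]
      refine integral_congr_ae (Eventually.of_forall fun y => ?_)
      have h5 : ∀ i j : Fin n, (fderiv ℝ X (cn t y) (bv i.succ)) j.succ =
          (fderiv ℝ (fun y => tl (X (cn t y))) y (bv i)) j := by
        intro i j
        rw [(hXt t).2 y (bv i), (a5 i).2]
        rfl
      rw [hF₂]
      show (∑ i : Fin n, nsq (tg G (cn t y)) * (fderiv ℝ X (cn t y) (bv i.succ)) i.succ -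
        2 * ∑ i : Fin n, ∑ j : Fin n, ⟪tg G (cn t y) (bv i.succ), tg G (cn t y) (bv j.succ)⟫ *
          (fderiv ℝ X (cn t y) (bv i.succ)) j.succ) = _
      simp only [htgs, h5, hnsq, (a1 t y).2.1]
      congr 1
      exact (Finset.mul_sum _ _ _).symm
    simp only [h3, integral_zero]
  simp only [e]
  rw [integral_add hi1 hi2, h1, h2, add_zero]

end Pool.Agent.H35.RG
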